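import Pool.Agent.Lib.MP_5e7226_co.RG.Defs

set_option autoImplicit false

/-! The classification of the connected positive definite Coxeter matrices: definitions. -/

namespace Pool.Agent.Lib.MP_5e7226_co.CL

open Finset

variable {n : ℕ}

/-- Coxeter matrices with finite entries. -/
structure Cox (M : Matrix (Fin n) (Fin n) ℕ) : Prop where
  symm : ∀ i j, M i j = M j i
  diag : ∀ i, M i i = 1
  off : ∀ i j, i ≠ j → 2 ≤ M i j

/-- The Gram matrix of the unit simple roots. -/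
noncomputable def gram (M : Matrix (Fin n) (Fin n) ℕ) (i j : Fin n) : ℝ := -Real.cos (Real.pi / M i j)

/-- Positive definite. -/
def PD (M : Matrix (Fin n) (Fin n) ℕ) : Prop :=
  ∀ c : Fin n → ℝ, c ≠ 0 → 0 < ∑ i, ∑ j, c i * c j * gram M i j

/-- Connected. -/
def Conn (M : Matrix (Fin n) (Fin n) ℕ) : Prop :=
  ∀ S : Finset (Fin n), S.Nonempty → S ≠ univ → ∃ i ∈ S, ∃ j, j ∉ S ∧ 3 ≤ M i j

/-- All types. (`A 2 = I 3`, `B 2 = I 4`.) -/
inductive AllType : (n : ℕ) → Matrix (Fin n) (Fin n) ℕ → Prop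
  | A (n : ℕ) (hn : 1 ≤ n) : AllType n (CoxeterMatrix.A n).M
  | B (n : ℕ) (hn : 2 ≤ n) : AllType n (CoxeterMatrix.B n).M
  | D (n : ℕ) (hn : 4 ≤ n) : AllType n (RG.matrixD n)
  | I (m : ℕ) (hm : 5 ≤ m) : AllType 2 (fun i j => if i = j then 1 else m)
  | E6 : AllType 6 CoxeterMatrix.E₆.M
  | E7 : AllType 7 CoxeterMatrix.E₇.M
  | E8 : AllType 8 CoxeterMatrix.E₈.M
  | F4 : AllType 4 CoxeterMatrix.F₄.M
  | H3 : AllType 3 CoxeterMatrix.H₃.M
  | H4 : AllType 4 CoxeterMatrix.H₄.M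

/-- Of one of the types up to the numbering. -/
def Typed (M : Matrix (Fin n) (Fin n) ℕ) : Prop :=
  ∃ e : Equiv.Perm (Fin n), AllType n (fun i j => M (e i) (e j))

/-- The restriction to the first `n` nodes. -/
def res (M : Matrix (Fin (n + 1)) (Fin (n + 1)) ℕ) : Matrix (Fin n) (Fin n) ℕ :=
  fun i j => M i.castSucc j.castSucc

/-- The weight of the bond between the last node and the node `j`. -/
noncomputable def wt (M : Matrix (Fin (n + 1)) (Fin (n + 1)) ℕ) (j : Fin n) : ℝ :=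
  Real.cos (Real.pi / M (Fin.last n) j.castSucc)

/-- `H` is the inverse of the Gram matrix, symmetric, with non-negative entries. -/
structure Inv (X : Matrix (Fin n) (Fin n) ℕ) (H : Fin n → Fin n → ℝ) : Prop where
  symm : ∀ i j, H i j = H j i
  nonneg : ∀ i j, 0 ≤ H i j
  inv : ∀ i k, ∑ j, gram X i j * H j k = if i = k then 1 else 0

end Pool.Agent.Lib.MP_5e7226_co.CL
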