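import Pool.Agent.Lib.MP_5e7226_co.CL.Defs

set_option autoImplicit false

/-! Root sets and simple systems: definitions. -/

namespace Pool.Agent.Lib.MP_5e7226_co.CL

variable {V : Type*} [AddCommGroup V] [Module ℝ V]

/-- A positive definite symmetric form. -/
structure Frm (B : V →ₗ[ℝ] V →ₗ[ℝ] ℝ) : Prop where
  symm : ∀ x y, B x y = B y x
  pos : ∀ x, x ≠ 0 → 0 < B x x

/-- The reflection in the unit vector `a`. -/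
def rf (B : V →ₗ[ℝ] V →ₗ[ℝ] ℝ) (a x : V) : V := x - (2 * B a x) • a

/-- The unit roots of an irreducible reflection group. -/
structure RootSet (B : V →ₗ[ℝ] V →ₗ[ℝ] ℝ) (Φ : Set V) : Prop where
  finite : Φ.Finite
  unit : ∀ a ∈ Φ, B a a = 1
  refl : ∀ a ∈ Φ, ∀ b ∈ Φ, rf B a b ∈ Φ
  span : Submodule.span ℝ Φ = ⊤
  irr : ∀ Ψ : Set V, Ψ ⊆ Φ → (∀ a ∈ Ψ, ∀ b ∈ Φ, b ∉ Ψ → B a b = 0) → Ψ = ∅ ∨ Ψ = Φ

/-- A simple system for the regular vector `ρ`. -/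
structure Simple (B : V →ₗ[ℝ] V →ₗ[ℝ] ℝ) (Φ : Set V) (ρ : V) (Δ : Finset V) : Prop where
  regular : ∀ a ∈ Φ, B ρ a ≠ 0
  sub : ∀ a ∈ Δ, a ∈ Φ
  pos : ∀ a ∈ Δ, 0 < B ρ a
  gen : ∀ a ∈ Φ, 0 < B ρ a → ∃ c : V → ℝ, (∀ x, 0 ≤ c x) ∧ a = ∑ δ ∈ Δ, c δ • δ
  obtuse : ∀ a ∈ Δ, ∀ b ∈ Δ, a ≠ b → B a b ≤ 0

/-- A linear reflection: it fixes the hyperplane `φ = 0` and maps `a` to `-a`. -/
def IsReflection (g : V ≃ₗ[ℝ] V) : Prop :=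
  ∃ (a : V) (φ : V →ₗ[ℝ] ℝ), φ a = 2 ∧ ∀ x, g x = x - φ x • a

end Pool.Agent.Lib.MP_5e7226_co.CL
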